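import Pool.Agent.X225.Pa.Main

/-!
# Polynomial algebras are logically homogeneous
-/

namespace Pool.Agent.X225.Pa

open MvPolynomial

variable {P : Type} [Field P] {k : ℕ}

theorem dvd_aeval {B : Type} [CommRing B] [Algebra P B] (v w : B) (f : Polynomial P) :
    v - w ∣ Polynomial.aeval v f - Polynomial.aeval w f := by
  rw [Polynomial.aeval_def, Polynomial.aeval_def, Polynomial.eval₂_eq_eval_map,
    Polynomial.eval₂_eq_eval_map]
  exact Polynomial.sub_dvd_eval_sub v w _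

/-- matching of polynomials in two elements in general position -/
theorem match_poly {σ : Type} {v w : MvPolynomial σ P} {q : ℕ} (hw : Cl q w) (hg : Good q v w)
    {f g : Polynomial P} (h : ∃ c, Polynomial.aeval v f - Polynomial.aeval w g = (v - w) * c) :
    f = g := by
  obtain ⟨c, hc⟩ := h
  obtain ⟨d, hd⟩ := dvd_aeval v w f
  have h1 : Polynomial.aeval w (f - g) = 0 := by
    refine hg.2 _ ((Cl_iff hw _).2 ⟨_, rfl⟩) ⟨c - d, ?_⟩
    rw [map_sub]
    linear_combination hc - hd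
  exact sub_eq_zero.1 (transc hw.1 _ h1)

theorem D_sub {σ : Type} {q : ℕ} {v : MvPolynomial σ P} (h : Cl q v) {x y : MvPolynomial σ P}
    (hx : D q v x) (hy : D q v y) : D q v (x - y) := by
  rw [Cl_iff h] at *
  obtain ⟨f, rfl⟩ := hx
  obtain ⟨g, rfl⟩ := hy
  exact ⟨f - g, by rw [map_sub]⟩

/-- the value of an element is determined -/
theorem value {e : Fin (k + 1) → MvPolynomial (Fin (k + 1)) P} (he : W (ringChar P) e)
    (a : Fin k → Polynomial P) (G : MvPolynomial (Fin (k + 1)) P)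
    {x : MvPolynomial (Fin (k + 1)) P} (hx : D (ringChar P) (e 0) x)
    (h : InI e (fun i => Polynomial.aeval (e 0) (a i)) (aeval e G - x)) :
    x = Polynomial.aeval (e 0) (uni a G) := by
  obtain ⟨h1, h2⟩ := he
  have hα : ∀ i, D (ringChar P) (e 0) (Polynomial.aeval (e 0) (a i)) := fun i =>
    (Cl_iff h1 _).2 ⟨_, rfl⟩
  have h3 := InI_repl (P := P) e (fun i => Polynomial.aeval (e 0) (a i)) G
  rw [aeval_repl] at h3
  have h4 := h3.sub h
  rw [sub_sub_sub_cancel_left] at h4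
  have h5 := (h2 _ hα).2 _ (D_sub h1 hx ((Cl_iff h1 _).2 ⟨_, rfl⟩)) h4
  exact sub_eq_zero.1 h5

theorem Th_X : Th (ringChar P) (X : Fin (k + 1) → MvPolynomial (Fin (k + 1)) P) := by
  refine ⟨W_X, fun r hr hgood g => ⟨aeval r g, ?_⟩⟩
  intro α β x x' hα hβ hαβ hx hx' h1 h2
  have hWX := W_X (P := P) (k := k)
  simp only [Cl_iff hWX.1] at hα
  simp only [Cl_iff hr.1] at hβ
  choose a ha using hα
  choose b hb using hβ
  have hab : a = b := by
    funext i
    apply match_poly hr.1 hgood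
    rw [← ha, ← hb]
    exact hαβ i
  subst hab
  have hα' : α = fun i => Polynomial.aeval (X 0) (a i) := funext ha
  have hβ' : β = fun i => Polynomial.aeval (r 0) (a i) := funext hb
  subst hα' hβ'
  have hx1 := value hWX a g hx (by rw [aeval_X_left_apply]; exact h1)
  have hx2 := value hr a g hx' h2
  rw [hx1, hx2]
  exact dvd_aeval _ _ _

/-! ### Automorphic images of the basis -/

section aut

variable (σ : MvPolynomial (Fin (k + 1)) P ≃ₐ[P] MvPolynomial (Fin (k + 1)) P)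

theorem W_aut : W (ringChar P) (fun i => σ (X i)) := by
  have h := dfn_W (P := P) (B := MvPolynomial (Fin (k + 1)) P) (ringChar P)
    (E := fun v : Fin (k + 1) → MvPolynomial (Fin (k + 1)) P => v) (fun i => DT.var i)
  exact (h.invariant σ X).2 W_X

theorem PV_aut {v x : MvPolynomial (Fin (k + 1)) P} :
    PV (P := P) (σ v) (σ x) ↔ PV (P := P) v x := by
  constructor
  · rintro ⟨f, hf⟩
    refine ⟨f, σ.injective ?_⟩
    rw [hf]
    exact (Polynomial.aeval_algHom_apply σ.toAlgHom v f)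
  · rintro ⟨f, rfl⟩
    exact ⟨f, (Polynomial.aeval_algHom_apply σ.toAlgHom v f).symm⟩

theorem factor_aut {a b : MvPolynomial (Fin (k + 1)) P} (h : PV (P := P) (σ (X 0)) (a * b))
    (h0 : a * b ≠ 0) : PV (P := P) (σ (X 0)) a := by
  have h1 : PV (P := P) (X 0) (σ.symm a * σ.symm b) := by
    rw [← PV_aut σ, map_mul, σ.apply_symm_apply, σ.apply_symm_apply]
    exact h
  have h2 : σ.symm a * σ.symm b ≠ 0 := by
    rw [← map_mul, Ne, EmbeddingLike.map_eq_zero_iff]
    exact h0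
  have h3 := (PV_aut σ).2 (factor_closed h1 h2)
  rwa [σ.apply_symm_apply] at h3

theorem PV_sub {B : Type} [CommRing B] [Algebra P B] {v x : B} (h : PV (P := P) v (x - v)) :
    PV (P := P) v x := by
  obtain ⟨f, hf⟩ := h
  exact ⟨f + Polynomial.X, by rw [map_add, Polynomial.aeval_X, ← hf, sub_add_cancel]⟩

theorem Good_aut {v : MvPolynomial (Fin (k + 1)) P} (hv : Cl (ringChar P) v)
    (hnot : ¬ PV (P := P) (σ (X 0)) v) : Good (ringChar P) v (σ (X 0)) := by
  have hcl : Cl (ringChar P) (σ (X 0)) := (W_aut σ).1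
  have h2 : ∀ x, D (ringChar P) (σ (X 0)) x → (∃ c, x = (v - σ (X 0)) * c) → x = 0 := by
    rintro x hx ⟨c, rfl⟩
    by_contra h0
    exact hnot (PV_sub (factor_aut σ ((Cl_iff hcl _).1 hx) h0))
  refine ⟨fun x hx hxc => ?_, h2⟩
  obtain ⟨f, rfl⟩ := (Cl_iff hv _).1 hx
  obtain ⟨c, hc⟩ := hxc
  obtain ⟨d, hd⟩ := dvd_aeval v (σ (X 0)) f
  have h3 : Polynomial.aeval (σ (X 0)) f = 0 :=
    h2 _ ((Cl_iff hcl _).2 ⟨_, rfl⟩) ⟨c - d, by linear_combination hc - hd⟩
  rw [transc hcl.1 _ h3, map_zero]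

end aut

/-- there is a basis in general position -/
theorem exists_good {v : MvPolynomial (Fin (k + 2)) P} (hv : Cl (ringChar P) v) :
    ∃ σ : MvPolynomial (Fin (k + 2)) P ≃ₐ[P] MvPolynomial (Fin (k + 2)) P,
      Good (ringChar P) v (σ (X 0)) := by
  by_cases h0 : PV (P := P) (X 0) v
  · refine ⟨renameEquiv P (Equiv.swap 0 1), Good_aut _ hv ?_⟩
    rw [renameEquiv_apply, rename_X, Equiv.swap_apply_left]
    rintro ⟨g, hg⟩
    obtain ⟨f, hf⟩ := h0
    apply hv.1
    rw [isCst_iff]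
    refine ⟨f.coeff 0, ?_⟩
    let τ : MvPolynomial (Fin (k + 2)) P →ₐ[P] MvPolynomial (Fin (k + 2)) P :=
      aeval (Function.update X 0 0)
    have h1 : τ v = v := by
      conv_rhs => rw [hg]
      rw [hg, ← Polynomial.aeval_algHom_apply]
      congr 1
      simp [τ]
    have h2 : τ v = C (f.coeff 0) := by
      rw [hf, ← Polynomial.aeval_algHom_apply]
      have h3 : τ (X 0) = 0 := by simp [τ]
      rw [h3, Polynomial.aeval_def, Polynomial.eval₂_at_zero]
      rfl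
    rw [← h1, h2]
  · exact ⟨AlgEquiv.refl, Good_aut _ hv h0⟩

/-- **a tuple satisfying the formula generates the algebra** -/
theorem Th_gen {e : Fin (k + 2) → MvPolynomial (Fin (k + 2)) P} (he : Th (ringChar P) e)
    (g : MvPolynomial (Fin (k + 2)) P) : ∃ G : MvPolynomial (Fin (k + 2)) P, g = aeval e G := by
  obtain ⟨hW, hT⟩ := he
  obtain ⟨σ, hσ⟩ := exists_good hW.1
  have hWr := W_aut σ
  obtain ⟨h, hh⟩ := hT (fun i => σ (X i)) hWr hσ g
  refine ⟨σ.symm h, ?_⟩
  have hr : aeval (fun i => σ (X i)) (σ.symm h) = h := by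
    have h1 : (aeval (fun i => σ (X i)) :
        MvPolynomial (Fin (k + 2)) P →ₐ[P] MvPolynomial (Fin (k + 2)) P) = σ.toAlgHom := by
      ext1 i
      rw [aeval_X]
      rfl
    rw [h1]
    exact σ.apply_symm_apply h
  rw [← sub_eq_zero]
  apply inter_zero hW
  intro α hα
  obtain ⟨x, hx, hxI⟩ := (hW.2 α hα).1 g
  simp only [Cl_iff hW.1] at hα
  choose a ha using hα
  have hα' : α = fun i => Polynomial.aeval (e 0) (a i) := funext ha
  subst hα'
  obtain ⟨F, hF⟩ := (Cl_iff hW.1 _).1 hx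
  have h1 := hh (fun i => Polynomial.aeval (e 0) (a i))
    (fun i => Polynomial.aeval (σ (X 0)) (a i)) x
    (Polynomial.aeval (σ (X 0)) (uni a (σ.symm h)))
    (fun i => (Cl_iff hW.1 _).2 ⟨_, rfl⟩) (fun i => (Cl_iff hWr.1 _).2 ⟨_, rfl⟩)
    (fun i => dvd_aeval _ _ _) hx ((Cl_iff hWr.1 _).2 ⟨_, rfl⟩) hxI (by
      have h2 := InI_repl (P := P) (fun i => σ (X i))
        (fun i => Polynomial.aeval (σ (X 0)) (a i)) (σ.symm h)
      rw [hr, aeval_repl (fun i => σ (X i)) a] at h2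
      exact h2)
  rw [hF] at h1
  have h2 := match_poly hWr.1 hσ h1
  have h3 := InI_repl (P := P) e (fun i => Polynomial.aeval (e 0) (a i)) (σ.symm h)
  rw [aeval_repl, ← h2, ← hF] at h3
  have h4 := hxI.sub h3
  rwa [sub_sub_sub_cancel_right] at h4

/-! ### The main theorem -/

/-- definable predicates transfer along equal types -/
theorem transfer {B : Type} [CommRing B] [Algebra P B] {n : ℕ} {a b : Fin n → B}
    (h : ∀ φ : FirstOrder.Language.ring.Formula (Fin n ⊕ P), Holds P φ a ↔ Holds P φ b)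
    {s : (Fin n → B) → Prop} (hs : Dfn P s) (ha : s a) : s b := by
  obtain ⟨φ, hφ⟩ := hs
  exact (hφ b).1 ((h φ).1 ((hφ a).2 ha))

theorem main_ge_two {n : ℕ} (a b : Fin n → MvPolynomial (Fin (k + 2)) P)
    (h : ∀ φ : FirstOrder.Language.ring.Formula (Fin n ⊕ P), Holds P φ a ↔ Holds P φ b) :
    ∃ σ : MvPolynomial (Fin (k + 2)) P ≃ₐ[P] MvPolynomial (Fin (k + 2)) P, ∀ i, σ (a i) = b i := by
  have hs : Dfn P (fun v : Fin n → MvPolynomial (Fin (k + 2)) P =>
      ∃ e : Fin (k + 2) → MvPolynomial (Fin (k + 2)) P, Th (ringChar P) e ∧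
        ∀ i, v i = aeval e (a i)) := by
    refine Dfn.exBlock (R := fun v (e : Fin (k + 2) → MvPolynomial (Fin (k + 2)) P) =>
      Th (ringChar P) e ∧ ∀ i, v i = aeval e (a i)) ?_
    exact (dfn_Th (k := k + 1) (ringChar P) DTs.inr).and (Dfn.forallFin fun i =>
      Dfn.eq (DT.var i).weak (DT.aeval (a i) DTs.inr))
  obtain ⟨e, he, hb⟩ := transfer h hs ⟨X, Th_X, fun i => (aeval_X_left_apply _).symm⟩
  refine ⟨AlgEquiv.ofBijective (aeval e) ⟨algInd he.1, fun g => ?_⟩, fun i => (hb i).symm⟩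
  obtain ⟨G, hG⟩ := Th_gen he g
  exact ⟨G, hG.symm⟩

theorem all_poly (g : MvPolynomial (Fin 1) P) : PV (P := P) (X 0) g := by
  rw [pv_iff (k := 0)]
  exact ⟨_, eq_C_of_isEmpty _⟩

theorem main_one {n : ℕ} (a b : Fin n → MvPolynomial (Fin 1) P)
    (h : ∀ φ : FirstOrder.Language.ring.Formula (Fin n ⊕ P), Holds P φ a ↔ Holds P φ b) :
    ∃ σ : MvPolynomial (Fin 1) P ≃ₐ[P] MvPolynomial (Fin 1) P, ∀ i, σ (a i) = b i := by
  have hs : Dfn P (fun v : Fin n → MvPolynomial (Fin 1) P =>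
      ∃ e : MvPolynomial (Fin 1) P, (¬ IsCst e ∧ ∀ g, ∃ l, ∃ x, IsCst l ∧ g = l + e * x) ∧
        ∀ i, v i = aeval (fun _ => e) (a i)) := by
    refine Dfn.ex (R := fun v (e : MvPolynomial (Fin 1) P) =>
      (¬ IsCst e ∧ ∀ g, ∃ l, ∃ x, IsCst l ∧ g = l + e * x) ∧
        ∀ i, v i = aeval (fun _ => e) (a i)) ?_
    refine Dfn.and (Dfn.and (dfn_IsCst (DT.var _)).not ?_) (Dfn.forallFin fun i =>
      Dfn.eq (DT.var i).weak (DT.aeval (a i) fun _ => DT.var _))
    refine Dfn.all (R := fun v g => ∃ l, ∃ x, IsCst l ∧ g = l + v (Sum.inr ()) * x) ?_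
    refine Dfn.ex (R := fun v l => ∃ x, IsCst l ∧
      v (Sum.inr ()) = l + (v ∘ Sum.inl) (Sum.inr ()) * x) ?_
    refine Dfn.ex ?_
    exact (dfn_IsCst (DT.var (Sum.inr ())).weak).and (Dfn.eq (DT.var (Sum.inr ())).weak.weak
      ((DT.var (Sum.inr ())).weak.add ((DT.var (Sum.inr ())).weak.weak.weak.mul (DT.var _))))
  have ha : ∃ e : MvPolynomial (Fin 1) P,
      (¬ IsCst e ∧ ∀ g, ∃ l, ∃ x, IsCst l ∧ g = l + e * x) ∧
        ∀ i, a i = aeval (fun _ => e) (a i) := by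
    refine ⟨X 0, ⟨not_cst_X_zero, fun g => ?_⟩, fun i => ?_⟩
    · obtain ⟨f, rfl⟩ := all_poly g
      refine ⟨algebraMap P _ (f.coeff 0), Polynomial.aeval (X 0) f.divX,
        (isCst_iff _).2 ⟨_, rfl⟩, ?_⟩
      conv_lhs => rw [← Polynomial.divX_mul_X_add f]
      rw [map_add, map_mul, Polynomial.aeval_X, Polynomial.aeval_C]
      ring
    · have h1 : (fun _ : Fin 1 => (X 0 : MvPolynomial (Fin 1) P)) = X := by
        funext i
        rw [Subsingleton.elim i 0]
      rw [h1, aeval_X_left_apply]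
  obtain ⟨e, ⟨he1, he2⟩, hb⟩ := transfer h hs ha
  have hdes := fun g => descent he1 (fun _ => True) (fun x _ => by
    obtain ⟨l, x', hl, hx⟩ := he2 x
    exact ⟨l, x', hl, trivial, hx⟩) g trivial
  have hcomp : ∀ f : Polynomial P, aeval (fun _ : Fin 1 => e)
      (Polynomial.aeval (X 0 : MvPolynomial (Fin 1) P) f) = Polynomial.aeval e f := by
    intro f
    rw [← Polynomial.aeval_algHom_apply, aeval_X]
  refine ⟨AlgEquiv.ofBijective (aeval fun _ => e) ⟨?_, fun g => ?_⟩, fun i => (hb i).symm⟩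
  · rw [injective_iff_map_eq_zero]
    intro G hG
    obtain ⟨f, rfl⟩ := all_poly G
    rw [hcomp] at hG
    rw [transc he1 f hG, map_zero]
  · obtain ⟨f, hf⟩ := hdes g
    exact ⟨Polynomial.aeval (X 0) f, by rw [hcomp, hf]⟩

theorem main_zero {n : ℕ} (a b : Fin n → MvPolynomial (Fin 0) P)
    (h : ∀ φ : FirstOrder.Language.ring.Formula (Fin n ⊕ P), Holds P φ a ↔ Holds P φ b) :
    ∃ σ : MvPolynomial (Fin 0) P ≃ₐ[P] MvPolynomial (Fin 0) P, ∀ i, σ (a i) = b i := by
  have hs : Dfn P (fun v : Fin n → MvPolynomial (Fin 0) P =>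
      ∀ i, v i = algebraMap P _ (coeff 0 (a i))) :=
    Dfn.forallFin fun i => Dfn.eq (DT.var i) (DT.const _)
  have ha : ∀ i, a i = algebraMap P _ (coeff 0 (a i)) := fun i => eq_C_of_isEmpty _
  have hb := transfer h hs ha
  refine ⟨AlgEquiv.refl, fun i => ?_⟩
  rw [hb i]
  exact ha i

theorem main (m : ℕ) {n : ℕ} (a b : Fin n → MvPolynomial (Fin m) P)
    (h : ∀ φ : FirstOrder.Language.ring.Formula (Fin n ⊕ P), Holds P φ a ↔ Holds P φ b) :
    ∃ σ : MvPolynomial (Fin m) P ≃ₐ[P] MvPolynomial (Fin m) P, ∀ i, σ (a i) = b i := by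
  match m, a, b, h with
  | 0, a, b, h => exact main_zero a b h
  | 1, a, b, h => exact main_one a b h
  | k + 2, a, b, h => exact main_ge_two a b h

end Pool.Agent.X225.Pa
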