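import Pool.Agent.X225.Pa.Form

/-!
# Polynomial rings: the subring generated by a coordinate is definable
-/

namespace Pool.Agent.X225.Pa

open MvPolynomial

variable {P : Type} [Field P] {k : ℕ}

/-- constants -/
theorem isCst_iff {σ : Type} (x : MvPolynomial σ P) : IsCst x ↔ ∃ c, x = C c := by
  constructor
  · rintro (rfl | ⟨y, hy⟩)
    · exact ⟨0, by rw [C_0]⟩
    · obtain ⟨c, -, hc⟩ := isUnit_iff_eq_C_of_isReduced.1 (IsUnit.of_mul_eq_one y hy)
      exact ⟨c, hc⟩
  · rintro ⟨c, rfl⟩
    by_cases hc : c = 0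
    · left; rw [hc, C_0]
    · right; exact ⟨C c⁻¹, by rw [← C_mul, mul_inv_cancel₀ hc, C_1]⟩

/-- descent -/
theorem descent {σ : Type} {v : MvPolynomial σ P} (hv : ¬ IsCst v)
    (S : MvPolynomial σ P → Prop)
    (hS : ∀ x, S x → ∃ l, ∃ x', IsCst l ∧ S x' ∧ x = l + v * x') (x : MvPolynomial σ P)
    (hx : S x) : ∃ f : Polynomial P, x = Polynomial.aeval v f := by
  have hv0 : v ≠ 0 := fun h => hv (Or.inl h)
  have hdeg : 0 < v.totalDegree := by
    rw [Nat.pos_iff_ne_zero]
    intro h
    exact hv ((isCst_iff v).2 ⟨_, totalDegree_eq_zero_iff_eq_C.1 h⟩)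
  induction hn : x.totalDegree using Nat.strong_induction_on generalizing x with
  | _ n ih =>
    obtain ⟨l, x', hl, hx', rfl⟩ := hS x hx
    obtain ⟨c, rfl⟩ := (isCst_iff l).1 hl
    by_cases hx0 : x' = 0
    · refine ⟨Polynomial.C c, ?_⟩
      rw [hx0, mul_zero, add_zero, Polynomial.aeval_C]
      rfl
    · have h1 : (C c + v * x').totalDegree = v.totalDegree + x'.totalDegree := by
        have h2 : (v * x').totalDegree = v.totalDegree + x'.totalDegree :=
          totalDegree_mul_of_isDomain hv0 hx0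
        rw [← h2, add_comm]
        refine totalDegree_add_eq_left_of_totalDegree_lt ?_
        rw [totalDegree_C, h2]
        omega
      obtain ⟨f, hf⟩ := ih x'.totalDegree (by omega) x' hx' rfl
      refine ⟨Polynomial.C c + Polynomial.X * f, ?_⟩
      rw [map_add, map_mul, Polynomial.aeval_C, Polynomial.aeval_X, ← hf]
      rfl

/-- nonconstant elements are transcendental -/
theorem transc {σ : Type} {v : MvPolynomial σ P} (hv : ¬ IsCst v) (f : Polynomial P)
    (hf : Polynomial.aeval v f = 0) : f = 0 := by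
  have hv0 : v ≠ 0 := fun h => hv (Or.inl h)
  induction hn : f.natDegree using Nat.strong_induction_on generalizing f with
  | _ n ih =>
    have h1 := Polynomial.divX_mul_X_add f
    have h2 : Polynomial.aeval v f.divX * v + algebraMap P _ (f.coeff 0) = 0 := by
      rw [← hf]
      conv_rhs => rw [← h1]
      rw [map_add, map_mul, Polynomial.aeval_X, Polynomial.aeval_C]
    have h3 : f.coeff 0 = 0 := by
      by_contra h
      apply hv
      right
      refine ⟨-Polynomial.aeval v f.divX * algebraMap P _ (f.coeff 0)⁻¹, ?_⟩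
      have h4 : algebraMap P (MvPolynomial σ P) (f.coeff 0) *
          algebraMap P _ (f.coeff 0)⁻¹ = 1 := by
        rw [← map_mul, mul_inv_cancel₀ h, map_one]
      linear_combination -(algebraMap P (MvPolynomial σ P) (f.coeff 0)⁻¹) * h2 + h4
    rw [h3, map_zero, add_zero] at h2
    have h4 := (mul_eq_zero.1 h2).resolve_right hv0
    by_cases hd : f.natDegree = 0
    · rw [Polynomial.eq_C_of_natDegree_eq_zero hd, h3, Polynomial.C_0]
    · have h5 : f.divX.natDegree < n := by
        rw [Polynomial.natDegree_divX_eq_natDegree_tsub_one]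
        omega
      have h6 := ih _ h5 _ h4 rfl
      rw [← h1, h6, h3]
      simp

/-- the polynomials in `v` -/
def PV {B : Type} [CommRing B] [Algebra P B] (v x : B) : Prop :=
  ∃ f : Polynomial P, x = Polynomial.aeval v f

/-- the equivalence with polynomials over `P[X]` -/
noncomputable def psi (P : Type) [Field P] (k : ℕ) :
    MvPolynomial (Fin (k + 1)) P ≃ₐ[P] MvPolynomial (Fin k) (Polynomial P) :=
  (renameEquiv P (_root_.finSuccEquiv k)).trans (optionEquivRight P (Fin k))

theorem psi_X_zero : psi P k (X 0) = C Polynomial.X := by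
  simp [psi]

theorem psi_X_succ (i : Fin k) : psi P k (X i.succ) = X i := by
  simp [psi]

theorem psi_aeval (f : Polynomial P) : psi P k (Polynomial.aeval (X 0) f) = C f := by
  induction f using Polynomial.induction_on' with
  | add p q hp hq => rw [map_add, map_add, hp, hq, C_add]
  | monomial n a =>
    rw [← Polynomial.C_mul_X_pow_eq_monomial, map_mul, map_pow, Polynomial.aeval_X,
      Polynomial.aeval_C, map_mul, map_pow, psi_X_zero, AlgEquiv.commutes, C_mul, C_pow]
    rfl

theorem pv_iff (x : MvPolynomial (Fin (k + 1)) P) :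
    PV (P := P) (X 0) x ↔ ∃ f, psi P k x = C f := by
  constructor
  · rintro ⟨f, rfl⟩
    exact ⟨f, psi_aeval f⟩
  · rintro ⟨f, hf⟩
    refine ⟨f, (psi P k).injective ?_⟩
    rw [hf, psi_aeval]

/-- factors of elements of `P[X 0]` are in `P[X 0]` -/
theorem factor_closed {a b : MvPolynomial (Fin (k + 1)) P} (h : PV (P := P) (X 0) (a * b))
    (h0 : a * b ≠ 0) : PV (P := P) (X 0) a := by
  rw [pv_iff] at h ⊢
  obtain ⟨f, hf⟩ := h
  rw [map_mul] at hf
  have ha : psi P k a ≠ 0 := by
    rw [Ne, EmbeddingLike.map_eq_zero_iff]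
    exact left_ne_zero_of_mul h0
  have hb : psi P k b ≠ 0 := by
    rw [Ne, EmbeddingLike.map_eq_zero_iff]
    exact right_ne_zero_of_mul h0
  have h1 := congrArg totalDegree hf
  rw [totalDegree_mul_of_isDomain ha hb, totalDegree_C] at h1
  exact ⟨_, totalDegree_eq_zero_iff_eq_C.1 (by omega)⟩

/-! ### Powers -/

theorem prime_X_zero : Prime (X 0 : MvPolynomial (Fin (k + 1)) P) := X_prime

theorem pow_X_zero (N : ℕ) : Pow (X 0 : MvPolynomial (Fin (k + 1)) P) (X 0 ^ N) := by
  constructor
  · rintro d ⟨c, hc⟩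
    have h1 : d ∣ X 0 ^ N := ⟨c, hc⟩
    obtain ⟨i, -, hi⟩ := (dvd_prime_pow prime_X_zero N).1 h1
    rcases i with _ | i
    · left
      rw [pow_zero] at hi
      obtain ⟨u, hu⟩ := hi.symm
      exact ⟨((u⁻¹ : (MvPolynomial (Fin (k + 1)) P)ˣ) : MvPolynomial (Fin (k + 1)) P), by
        rw [← hu, one_mul]; exact u.mul_inv⟩
    · right
      have h2 : (X 0 : MvPolynomial (Fin (k + 1)) P) ∣ d :=
        (dvd_pow_self _ (Nat.succ_ne_zero i)).trans hi.dvd'
      exact h2
  · exact sub_one_dvd_pow_sub_one N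
where
  sub_one_dvd_pow_sub_one (N : ℕ) :
      (X 0 - 1 : MvPolynomial (Fin (k + 1)) P) ∣ X 0 ^ N - 1 := by
    simpa using sub_dvd_pow_sub_pow (X 0 : MvPolynomial (Fin (k + 1)) P) 1 N

theorem eq_pow_of_Pow {u : MvPolynomial (Fin (k + 1)) P} (h : Pow (X 0) u) :
    ∃ N, u = X 0 ^ N := by
  obtain ⟨h1, h2⟩ := h
  -- evaluation at `X 0 = 1`
  let ev : MvPolynomial (Fin (k + 1)) P →ₐ[P] P := aeval (fun _ => (1 : P))
  have hev : ev (X 0 - 1) = 0 := by simp [ev]
  have hnu : ¬ ∃ y, (X 0 - 1 : MvPolynomial (Fin (k + 1)) P) * y = 1 := by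
    rintro ⟨y, hy⟩
    have := congrArg ev hy
    rw [map_mul, hev, zero_mul, map_one] at this
    exact zero_ne_one this
  have hu : u ≠ 0 := by
    rintro rfl
    rcases h1 (X 0 - 1) ⟨0, by rw [mul_zero]⟩ with h | ⟨c, hc⟩
    · exact hnu h
    · have h3 : (X 0 : MvPolynomial (Fin (k + 1)) P) ∣ 1 := ⟨1 - c, by linear_combination -hc⟩
      exact prime_X_zero.not_isUnit (isUnit_of_dvd_one h3)
  obtain ⟨N, u', hu', rfl⟩ := WfDvdMonoid.max_power_factor hu prime_X_zero.irreducible
  refine ⟨N, ?_⟩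
  rcases h1 u' ⟨X 0 ^ N, by rw [mul_comm]⟩ with h | h
  · obtain ⟨c, rfl⟩ := (isCst_iff u').1 (Or.inr h)
    obtain ⟨w, hw⟩ := h2
    have h3 := congrArg ev hw
    rw [map_mul, hev, zero_mul] at h3
    simp only [ev, map_sub, map_mul, map_pow, map_one, aeval_X, one_pow, one_mul] at h3
    have h4 : c = 1 := by
      rw [sub_eq_zero] at h3
      simpa using h3
    rw [h4, C_1, mul_one]
  · exact absurd h hu'

/-! ### The subring -/

/-- squarefree polynomials: every polynomial is von Neumann regular modulo them -/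
theorem regular_mod {F : Polynomial P} (f : Polynomial P) (hF : Squarefree F) (hF0 : F ≠ 0) :
    ∃ z c, f - f * f * z = F * c := by
  classical
  obtain ⟨F', hF'⟩ : EuclideanDomain.gcd f F ∣ F := EuclideanDomain.gcd_dvd_right f F
  obtain ⟨f', hf'⟩ : EuclideanDomain.gcd f F ∣ f := EuclideanDomain.gcd_dvd_left f F
  have hF'0 : F' ≠ 0 := fun h => hF0 (by rw [hF', h, mul_zero])
  have hcop : IsCoprime f F' := by
    refine isCoprime_of_irreducible_dvd (fun h => hF'0 h.2) fun z hz hzf hzF' => hz.not_isUnit ?_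
    have h1 : z ∣ EuclideanDomain.gcd f F :=
      EuclideanDomain.dvd_gcd hzf (by rw [hF']; exact hzF'.mul_left _)
    refine hF z ?_
    rw [hF']
    exact mul_dvd_mul h1 hzF'
  obtain ⟨z, w, hzw⟩ := hcop
  refine ⟨z, f' * w, ?_⟩
  have h2 : f - f * f * z = f * (F' * w) := by linear_combination -f * hzw
  have h3 : f * (F' * w) = EuclideanDomain.gcd f F * f' * (F' * w) := by rw [← hf']
  have h4 : F * (f' * w) = EuclideanDomain.gcd f F * F' * (f' * w) := by rw [← hF']
  rw [h2, h3, h4]
  ring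

theorem exists_irreducible_not_dvd {F c : Polynomial P} (hF : Squarefree F) (hF0 : F ≠ 0)
    (hc : c ≠ 0) (hdeg : c.natDegree < F.natDegree) : ∃ π, Irreducible π ∧ π ∣ F ∧ ¬ π ∣ c := by
  classical
  by_contra hcon
  push Not at hcon
  obtain ⟨F', hF'⟩ : EuclideanDomain.gcd c F ∣ F := EuclideanDomain.gcd_dvd_right c F
  have hF'0 : F' ≠ 0 := fun h => hF0 (by rw [hF', h, mul_zero])
  have hunit : IsUnit F' := by
    by_contra hu
    obtain ⟨π, hπ, hπF'⟩ := WfDvdMonoid.exists_irreducible_factor hu hF'0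
    have hπF : π ∣ F := by rw [hF']; exact hπF'.mul_left _
    have h1 : π ∣ EuclideanDomain.gcd c F := EuclideanDomain.dvd_gcd (hcon π hπ hπF) hπF
    refine hπ.not_isUnit (hF π ?_)
    rw [hF']
    exact mul_dvd_mul h1 hπF'
  have h2 : F ∣ c := by
    have h3 : F ∣ EuclideanDomain.gcd c F := by
      obtain ⟨u, hu⟩ := hunit
      refine ⟨((u⁻¹ : (Polynomial P)ˣ) : Polynomial P), ?_⟩
      conv_rhs => rw [hF', ← hu]
      rw [mul_assoc, u.mul_inv, mul_one]
    exact h3.trans (EuclideanDomain.gcd_dvd_left c F)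
  exact absurd (Polynomial.natDegree_le_of_dvd h2 hc) (by omega)

theorem sq_free {N : ℕ} (hN : ¬ ringChar P ∣ N) :
    Squarefree (Polynomial.X ^ N - 1 : Polynomial P) ∧ (Polynomial.X ^ N - 1 : Polynomial P) ≠ 0 := by
  have h1 : (N : P) ≠ 0 := fun h => hN ((ringChar.spec P N).1 h)
  have h2 := (Polynomial.X_pow_sub_one_separable_iff (F := P)).2 h1
  exact ⟨h2.squarefree, h2.ne_zero⟩

theorem totalDegree_pow' {σ : Type} {w : MvPolynomial σ P} (hw : w ≠ 0) (n : ℕ) :
    (w ^ n).totalDegree = n * w.totalDegree := by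
  induction n with
  | zero => simp
  | succ n ih =>
    rw [pow_succ, totalDegree_mul_of_isDomain (pow_ne_zero n hw) hw, ih]
    ring

/-- **the formula `D` defines `P[X 0]` at `X 0`** -/
theorem D_iff (x : MvPolynomial (Fin (k + 1)) P) :
    D (ringChar P) (X 0) x ↔ PV (P := P) (X 0) x := by
  constructor
  · intro h
    rw [pv_iff]
    by_contra hcon
    -- a nonconstant coefficient
    obtain ⟨m, hm, hm0⟩ : ∃ m, coeff m (psi P k x) ≠ 0 ∧ m ≠ 0 := by
      by_contra hno
      push Not at hno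
      apply hcon
      refine ⟨coeff 0 (psi P k x), ?_⟩
      ext1 m
      rw [coeff_C]
      split_ifs with h1
      · rw [h1]
      · by_contra h2
        exact h1 (hno m h2).symm
    set c := coeff m (psi P k x) with hc
    -- the exponent
    obtain ⟨N, hN1, hN2⟩ : ∃ N, c.natDegree < N ∧ ¬ ringChar P ∣ N := by
      by_cases hdiv : ringChar P ∣ c.natDegree + 1
      · refine ⟨c.natDegree + 2, by omega, fun h2 => ?_⟩
        have h3 : ringChar P ∣ 1 := (Nat.dvd_add_right hdiv).1 h2
        have h4 := Nat.dvd_one.1 h3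
        have h5 : ((1 : ℕ) : P) = 0 := (ringChar.spec P 1).2 (by rw [h4])
        rw [Nat.cast_one] at h5
        exact one_ne_zero h5
      · exact ⟨_, by omega, hdiv⟩
    obtain ⟨hsq, hne⟩ := sq_free hN2
    have hdegN : (Polynomial.X ^ N - 1 : Polynomial P).natDegree = N := by
      have := Polynomial.natDegree_X_pow_sub_C (R := P) (n := N) (r := 1)
      rwa [Polynomial.C_1] at this
    obtain ⟨π, hπ, hπF, hπc⟩ := exists_irreducible_not_dvd hsq hne hm (by rw [hdegN]; exact hN1)
    have hpow : ∀ w : MvPolynomial (Fin (k + 1)) P, ¬ X 0 ^ N = w ^ ringChar P := by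
      intro w hw
      have h1 := congrArg totalDegree hw
      have h2 : (X 0 ^ N : MvPolynomial (Fin (k + 1)) P).totalDegree = N := by
        rw [totalDegree_X_pow]
      have hw0 : w ≠ 0 := by
        rintro rfl
        by_cases h3 : ringChar P = 0
        · apply hN2
          rw [h3, pow_zero] at hw
          rw [hw, totalDegree_one] at h2
          rw [← h2]
          exact dvd_zero _
        · rw [zero_pow h3] at hw
          exact pow_ne_zero _ (X_ne_zero 0) hw
      have h3 : (w ^ ringChar P).totalDegree = ringChar P * w.totalDegree :=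
        totalDegree_pow' hw0 _
      rw [h2, h3] at h1
      exact hN2 ⟨_, h1⟩
    obtain ⟨z, w, hzw⟩ := h (X 0 ^ N) (pow_X_zero N) hpow
    have h1 := congrArg (psi P k) hzw
    rw [map_sub, map_mul, map_mul, map_mul, map_sub, map_pow, map_one, psi_X_zero] at h1
    have : Fact (Irreducible π) := ⟨hπ⟩
    have h2 := congrArg (MvPolynomial.map (AdjoinRoot.mk π)) h1
    rw [map_sub, map_mul, map_mul, map_mul] at h2
    have h3 : MvPolynomial.map (AdjoinRoot.mk π) (C Polynomial.X ^ N - 1 :
        MvPolynomial (Fin k) (Polynomial P)) = 0 := by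
      have h4 : (C Polynomial.X ^ N - 1 : MvPolynomial (Fin k) (Polynomial P)) =
          C (Polynomial.X ^ N - 1) := by
        rw [C_sub, C_pow, C_1]
      rw [h4, map_C, AdjoinRoot.mk_eq_zero.2 hπF, C_0]
    rw [h3, zero_mul] at h2
    set y := MvPolynomial.map (AdjoinRoot.mk π) (psi P k x) with hy
    have hym : coeff m y ≠ 0 := by
      rw [hy, coeff_map, Ne, AdjoinRoot.mk_eq_zero]
      exact hπc
    have hy0 : y ≠ 0 := fun h => hym (by rw [h, coeff_zero])
    have h5 : y * (MvPolynomial.map (AdjoinRoot.mk π) (psi P k z)) = 1 := by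
      apply mul_left_cancel₀ hy0
      linear_combination -h2
    obtain ⟨c', hc'⟩ := (isCst_iff y).1 (Or.inr ⟨_, h5⟩)
    apply hym
    rw [hc', coeff_C, if_neg (Ne.symm hm0)]
  · rintro ⟨f, rfl⟩ u hu hup
    obtain ⟨N, rfl⟩ := eq_pow_of_Pow hu
    have hN : ¬ ringChar P ∣ N := by
      rintro ⟨j, rfl⟩
      exact hup (X 0 ^ j) (by rw [← pow_mul, mul_comm])
    obtain ⟨hsq, hne⟩ := sq_free hN
    obtain ⟨z, c, hzc⟩ := regular_mod f hsq hne
    refine ⟨Polynomial.aeval (X 0) z, Polynomial.aeval (X 0) c, ?_⟩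
    have h1 := congrArg (Polynomial.aeval (X 0 : MvPolynomial (Fin (k + 1)) P)) hzc
    rw [map_sub, map_mul, map_mul, map_mul, map_sub, map_pow, map_one, Polynomial.aeval_X] at h1
    exact h1

end Pool.Agent.X225.Pa
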