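import Pool.Agent.X225.Pa.Logic

/-!
# The formula
-/

namespace Pool.Agent.X225.Pa

section defs

variable {B : Type} [CommRing B] (p : ℕ) {k : ℕ}

/-- constants: zero and units -/
def IsCst (x : B) : Prop := x = 0 ∨ ∃ y, x * y = 1

/-- powers of `v` -/
def Pow (v u : B) : Prop :=
  (∀ d, (∃ c, u = d * c) → (∃ y, d * y = 1) ∨ ∃ c, d = v * c) ∧ ∃ c, u - 1 = (v - 1) * c

/-- `x` is von Neumann regular modulo `w` -/
def Reg (x w : B) : Prop := ∃ z, ∃ c, x - x * x * z = w * c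

/-- membership in the subring generated by `v` -/
def D (v x : B) : Prop := ∀ u, Pow v u → (∀ w, ¬ u = w ^ p) → Reg x (u - 1)

/-- conditions on the subring -/
def Cl (v : B) : Prop :=
  ¬ IsCst v ∧ (∀ x, IsCst x → D p v x) ∧ D p v v ∧ (∀ x y, D p v x → D p v y → D p v (x + y)) ∧
    (∀ x y, D p v x → D p v y → D p v (x * y)) ∧
    ∀ x, D p v x → ∃ l, ∃ x', IsCst l ∧ D p v x' ∧ x = l + v * x'

/-- membership in the ideal generated by the `e (i+1) - α i` -/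
def InI (e : Fin (k + 1) → B) (α : Fin k → B) (g : B) : Prop :=
  ∃ c : Fin k → B, g = ∑ i, c i * (e i.succ - α i)

/-- the direct sum condition -/
def W (e : Fin (k + 1) → B) : Prop :=
  Cl p (e 0) ∧ ∀ α : Fin k → B, (∀ i, D p (e 0) (α i)) →
    (∀ g, ∃ x, D p (e 0) x ∧ InI e α (g - x)) ∧ ∀ x, D p (e 0) x → InI e α x → x = 0

/-- general position -/
def Good (v w : B) : Prop :=
  (∀ x, D p v x → (∃ c, x = (v - w) * c) → x = 0) ∧
    (∀ x, D p w x → (∃ c, x = (v - w) * c) → x = 0)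

/-- comparison of values -/
def Cmp (e r : Fin (k + 1) → B) (g h : B) : Prop :=
  ∀ α β : Fin k → B, ∀ x x', (∀ i, D p (e 0) (α i)) → (∀ i, D p (r 0) (β i)) →
    (∀ i, ∃ c, α i - β i = (e 0 - r 0) * c) → D p (e 0) x → D p (r 0) x' →
    InI e α (g - x) → InI r β (h - x') → ∃ c, x - x' = (e 0 - r 0) * c

/-- the formula -/
def Th (e : Fin (k + 1) → B) : Prop :=
  W p e ∧ ∀ r : Fin (k + 1) → B, W p r → Good p (e 0) (r 0) → ∀ g, ∃ h, Cmp p e r g h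

end defs

section dfn

variable {P : Type} [Field P] {B : Type} [CommRing B] [Algebra P B] (p : ℕ) {k : ℕ} {α : Type}

theorem dfn_unit {t : (α → B) → B} (ht : DT P t) : Dfn P fun v => ∃ y, t v * y = 1 :=
  Dfn.ex (Dfn.eq (ht.weak.mul (DT.var _)) DT.one)

theorem dfn_dvd {s t : (α → B) → B} (hs : DT P s) (ht : DT P t) :
    Dfn P fun v => ∃ y, s v = t v * y :=
  Dfn.ex (Dfn.eq hs.weak (ht.weak.mul (DT.var _)))

theorem dfn_IsCst {t : (α → B) → B} (ht : DT P t) : Dfn P fun v => IsCst (t v) :=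
  (Dfn.eq ht DT.zero).or (dfn_unit ht)

theorem dfn_Pow {s t : (α → B) → B} (hs : DT P s) (ht : DT P t) :
    Dfn P fun v => Pow (s v) (t v) :=
  (Dfn.all (R := fun v d => (∃ c, t v = d * c) → (∃ y, d * y = 1) ∨ ∃ c, d = s v * c)
    ((dfn_dvd ht.weak (DT.var _)).imp ((dfn_unit (DT.var _)).or (dfn_dvd (DT.var _) hs.weak)))).and
    (dfn_dvd (ht.sub DT.one) (hs.sub DT.one))

theorem dfn_Reg {s t : (α → B) → B} (hs : DT P s) (ht : DT P t) :
    Dfn P fun v => Reg (s v) (t v) :=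
  Dfn.ex (R := fun v z => ∃ c, s v - s v * s v * z = t v * c)
    (dfn_dvd (hs.weak.sub ((hs.weak.mul hs.weak).mul (DT.var _))) ht.weak)

theorem dfn_D {s t : (α → B) → B} (hs : DT P s) (ht : DT P t) :
    Dfn P fun v => D p (s v) (t v) := by
  refine Dfn.all (R := fun v u => Pow (s v) u → (∀ w, ¬ u = w ^ p) → Reg (t v) (u - 1)) ?_
  refine (dfn_Pow hs.weak (DT.var _)).imp (Dfn.imp ?_ (dfn_Reg ht.weak ((DT.var _).sub DT.one)))
  exact Dfn.all (R := fun v w => ¬ v (Sum.inr ()) = w ^ p)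
    (Dfn.not (Dfn.eq (DT.var (Sum.inr ())).weak ((DT.var _).pow p)))

theorem dfn_Cl {s : (α → B) → B} (hs : DT P s) : Dfn P fun v => Cl p (s v) := by
  refine (dfn_IsCst hs).not.and (Dfn.and ?_ ((dfn_D p hs hs).and (Dfn.and ?_ (Dfn.and ?_ ?_))))
  · exact Dfn.all (R := fun v x => IsCst x → D p (s v) x)
      ((dfn_IsCst (DT.var _)).imp (dfn_D p hs.weak (DT.var _)))
  · refine Dfn.all (R := fun v x => ∀ y, D p (s v) x → D p (s v) y → D p (s v) (x + y)) ?_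
    refine Dfn.all (R := fun v y => D p (s (v ∘ Sum.inl)) (v (Sum.inr ())) →
      D p (s (v ∘ Sum.inl)) y → D p (s (v ∘ Sum.inl)) (v (Sum.inr ()) + y)) ?_
    exact (dfn_D p hs.weak.weak (DT.var (Sum.inr ())).weak).imp ((dfn_D p hs.weak.weak
      (DT.var _)).imp (dfn_D p hs.weak.weak ((DT.var (Sum.inr ())).weak.add (DT.var _))))
  · refine Dfn.all (R := fun v x => ∀ y, D p (s v) x → D p (s v) y → D p (s v) (x * y)) ?_
    refine Dfn.all (R := fun v y => D p (s (v ∘ Sum.inl)) (v (Sum.inr ())) →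
      D p (s (v ∘ Sum.inl)) y → D p (s (v ∘ Sum.inl)) (v (Sum.inr ()) * y)) ?_
    exact (dfn_D p hs.weak.weak (DT.var (Sum.inr ())).weak).imp ((dfn_D p hs.weak.weak
      (DT.var _)).imp (dfn_D p hs.weak.weak ((DT.var (Sum.inr ())).weak.mul (DT.var _))))
  · refine Dfn.all (R := fun v x => D p (s v) x → ∃ l, ∃ x', IsCst l ∧ D p (s v) x' ∧
      x = l + s v * x') ?_
    refine (dfn_D p hs.weak (DT.var _)).imp ?_
    refine Dfn.ex (R := fun v l => ∃ x', IsCst l ∧ D p (s (v ∘ Sum.inl)) x' ∧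
      v (Sum.inr ()) = l + s (v ∘ Sum.inl) * x') ?_
    refine Dfn.ex (R := fun v x' => IsCst (v (Sum.inr ())) ∧
      D p (s ((v ∘ Sum.inl) ∘ Sum.inl)) x' ∧
      (v ∘ Sum.inl) (Sum.inr ()) = v (Sum.inr ()) + s ((v ∘ Sum.inl) ∘ Sum.inl) * x') ?_
    exact (dfn_IsCst (DT.var (Sum.inr ())).weak).and ((dfn_D p hs.weak.weak.weak (DT.var _)).and
      (Dfn.eq (DT.var (Sum.inr ())).weak.weak
        ((DT.var (Sum.inr ())).weak.add (hs.weak.weak.weak.mul (DT.var _)))))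

/-- block of terms -/
abbrev DTs {ι : Type} (P : Type) [Field P] {B : Type} [CommRing B] [Algebra P B] {α : Type}
    (E : (α → B) → (ι → B)) : Prop := ∀ i, DT P (fun v => E v i)

theorem DTs.weak {ι β : Type} {E : (α → B) → (ι → B)} (h : DTs P E) :
    DTs P (fun w : α ⊕ β → B => E (w ∘ Sum.inl)) := fun i => (h i).weak

theorem DTs.inr {ι : Type} : DTs P (fun w : α ⊕ ι → B => w ∘ Sum.inr) := fun i => DT.var _

theorem dfn_InI {E : (α → B) → (Fin (k + 1) → B)} {A : (α → B) → (Fin k → B)} {g : (α → B) → B}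
    (hE : DTs P E) (hA : DTs P A) (hg : DT P g) : Dfn P fun v => InI (E v) (A v) (g v) := by
  refine Dfn.exBlock (R := fun v c => g v = ∑ i, c i * (E v i.succ - A v i)) ?_
  exact Dfn.eq hg.weak (DT.sum _ fun i => (DT.var _).mul ((hE i.succ).weak.sub (hA i).weak))

theorem dfn_W {E : (α → B) → (Fin (k + 1) → B)} (hE : DTs P E) : Dfn P fun v => W p (E v) := by
  refine (dfn_Cl p (hE 0)).and ?_
  refine Dfn.allBlock (R := fun v (a : Fin k → B) => (∀ i, D p (E v 0) (a i)) →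
    (∀ g, ∃ x, D p (E v 0) x ∧ InI (E v) a (g - x)) ∧
      ∀ x, D p (E v 0) x → InI (E v) a x → x = 0) ?_
  refine Dfn.imp (Dfn.forallFin fun i => dfn_D p (hE 0).weak (DT.var _)) (Dfn.and ?_ ?_)
  · refine Dfn.all (R := fun v g => ∃ x, D p (E (v ∘ Sum.inl) 0) x ∧
      InI (E (v ∘ Sum.inl)) (v ∘ Sum.inr) (g - x)) ?_
    refine Dfn.ex (R := fun v x => D p (E ((v ∘ Sum.inl) ∘ Sum.inl) 0) x ∧
      InI (E ((v ∘ Sum.inl) ∘ Sum.inl)) ((v ∘ Sum.inl) ∘ Sum.inr) (v (Sum.inr ()) - x)) ?_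
    exact (dfn_D p (hE 0).weak.weak.weak (DT.var _)).and (dfn_InI hE.weak.weak.weak
      (DTs.inr.weak.weak) ((DT.var (Sum.inr ())).weak.sub (DT.var _)))
  · refine Dfn.all (R := fun v x => D p (E (v ∘ Sum.inl) 0) x →
      InI (E (v ∘ Sum.inl)) (v ∘ Sum.inr) x → x = 0) ?_
    exact (dfn_D p (hE 0).weak.weak (DT.var _)).imp ((dfn_InI hE.weak.weak DTs.inr.weak
      (DT.var _)).imp (Dfn.eq (DT.var _) DT.zero))

theorem dfn_Good {s t : (α → B) → B} (hs : DT P s) (ht : DT P t) :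
    Dfn P fun v => Good p (s v) (t v) := by
  refine Dfn.and ?_ ?_
  · refine Dfn.all (R := fun v x => D p (s v) x → (∃ c, x = (s v - t v) * c) → x = 0) ?_
    exact (dfn_D p hs.weak (DT.var _)).imp ((dfn_dvd (DT.var _) (hs.weak.sub ht.weak)).imp
      (Dfn.eq (DT.var _) DT.zero))
  · refine Dfn.all (R := fun v x => D p (t v) x → (∃ c, x = (s v - t v) * c) → x = 0) ?_
    exact (dfn_D p ht.weak (DT.var _)).imp ((dfn_dvd (DT.var _) (hs.weak.sub ht.weak)).imp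
      (Dfn.eq (DT.var _) DT.zero))

theorem dfn_Cmp {E R : (α → B) → (Fin (k + 1) → B)} {g h : (α → B) → B}
    (hE : DTs P E) (hR : DTs P R) (hg : DT P g) (hh : DT P h) :
    Dfn P fun v => Cmp p (E v) (R v) (g v) (h v) := by
  refine Dfn.allBlock (R := fun v (a : Fin k → B) => ∀ b : Fin k → B, ∀ x x',
    (∀ i, D p (E v 0) (a i)) → (∀ i, D p (R v 0) (b i)) →
    (∀ i, ∃ c, a i - b i = (E v 0 - R v 0) * c) → D p (E v 0) x → D p (R v 0) x' →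
    InI (E v) a (g v - x) → InI (R v) b (h v - x') → ∃ c, x - x' = (E v 0 - R v 0) * c) ?_
  refine Dfn.allBlock (R := fun w (b : Fin k → B) => ∀ x x',
    (∀ i, D p (E (w ∘ Sum.inl) 0) ((w ∘ Sum.inr) i)) → (∀ i, D p (R (w ∘ Sum.inl) 0) (b i)) →
    (∀ i, ∃ c, (w ∘ Sum.inr) i - b i = (E (w ∘ Sum.inl) 0 - R (w ∘ Sum.inl) 0) * c) →
    D p (E (w ∘ Sum.inl) 0) x → D p (R (w ∘ Sum.inl) 0) x' →
    InI (E (w ∘ Sum.inl)) (w ∘ Sum.inr) (g (w ∘ Sum.inl) - x) →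
    InI (R (w ∘ Sum.inl)) b (h (w ∘ Sum.inl) - x') →
    ∃ c, x - x' = (E (w ∘ Sum.inl) 0 - R (w ∘ Sum.inl) 0) * c) ?_
  refine Dfn.all (R := fun z x => ∀ x',
    (∀ i, D p (E ((z ∘ Sum.inl) ∘ Sum.inl) 0) (((z ∘ Sum.inl) ∘ Sum.inr) i)) →
    (∀ i, D p (R ((z ∘ Sum.inl) ∘ Sum.inl) 0) ((z ∘ Sum.inr) i)) →
    (∀ i, ∃ c, ((z ∘ Sum.inl) ∘ Sum.inr) i - (z ∘ Sum.inr) i =
      (E ((z ∘ Sum.inl) ∘ Sum.inl) 0 - R ((z ∘ Sum.inl) ∘ Sum.inl) 0) * c) →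
    D p (E ((z ∘ Sum.inl) ∘ Sum.inl) 0) x → D p (R ((z ∘ Sum.inl) ∘ Sum.inl) 0) x' →
    InI (E ((z ∘ Sum.inl) ∘ Sum.inl)) ((z ∘ Sum.inl) ∘ Sum.inr)
      (g ((z ∘ Sum.inl) ∘ Sum.inl) - x) →
    InI (R ((z ∘ Sum.inl) ∘ Sum.inl)) (z ∘ Sum.inr) (h ((z ∘ Sum.inl) ∘ Sum.inl) - x') →
    ∃ c, x - x' = (E ((z ∘ Sum.inl) ∘ Sum.inl) 0 - R ((z ∘ Sum.inl) ∘ Sum.inl) 0) * c) ?_
  refine Dfn.all ?_
  refine Dfn.imp (Dfn.forallFin fun i => ?_) (Dfn.imp (Dfn.forallFin fun i => ?_)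
    (Dfn.imp (Dfn.forallFin fun i => ?_) (Dfn.imp ?_ (Dfn.imp ?_ (Dfn.imp ?_ (Dfn.imp ?_ ?_))))))
  · exact dfn_D p (hE 0).weak.weak.weak.weak (DTs.inr i).weak.weak.weak
  · exact dfn_D p (hR 0).weak.weak.weak.weak (DTs.inr i).weak.weak
  · exact dfn_dvd ((DTs.inr i).weak.weak.weak.sub (DTs.inr i).weak.weak)
      ((hE 0).weak.weak.weak.weak.sub (hR 0).weak.weak.weak.weak)
  · exact dfn_D p (hE 0).weak.weak.weak.weak (DT.var (Sum.inr ())).weak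
  · exact dfn_D p (hR 0).weak.weak.weak.weak (DT.var (Sum.inr ()))
  · exact dfn_InI hE.weak.weak.weak.weak (DTs.inr.weak.weak.weak)
      (hg.weak.weak.weak.weak.sub (DT.var (Sum.inr ())).weak)
  · exact dfn_InI hR.weak.weak.weak.weak (DTs.inr.weak.weak)
      (hh.weak.weak.weak.weak.sub (DT.var (Sum.inr ())))
  · exact dfn_dvd ((DT.var (Sum.inr ())).weak.sub (DT.var (Sum.inr ())))
      ((hE 0).weak.weak.weak.weak.sub (hR 0).weak.weak.weak.weak)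

theorem dfn_Th {E : (α → B) → (Fin (k + 1) → B)} (hE : DTs P E) : Dfn P fun v => Th p (E v) := by
  refine (dfn_W p hE).and ?_
  refine Dfn.allBlock (R := fun v (r : Fin (k + 1) → B) => W p r → Good p (E v 0) (r 0) →
    ∀ g, ∃ h, Cmp p (E v) r g h) ?_
  refine (dfn_W p DTs.inr).imp ((dfn_Good p (hE 0).weak (DTs.inr 0)).imp ?_)
  refine Dfn.all (R := fun w g => ∃ h, Cmp p (E (w ∘ Sum.inl)) (w ∘ Sum.inr) g h) ?_
  refine Dfn.ex (R := fun w h => Cmp p (E ((w ∘ Sum.inl) ∘ Sum.inl)) ((w ∘ Sum.inl) ∘ Sum.inr)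
    (w (Sum.inr ())) h) ?_
  exact dfn_Cmp p hE.weak.weak.weak DTs.inr.weak.weak (DT.var (Sum.inr ())).weak (DT.var _)

end dfn

end Pool.Agent.X225.Pa
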