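import Mathlib

/-!
# Definable predicates over an algebra, with constants from the base field
-/

namespace Pool.Agent.X225.Pa

open FirstOrder FirstOrder.Language

variable (P : Type) [Field P] (B : Type) [CommRing B] [Algebra P B]

/-- the ring as a structure -/
noncomputable abbrev str : Language.ring.Structure B :=
  (FirstOrder.Ring.compatibleRingOfRing B).toStructure

variable {B}

/-- the formula holds at `v` -/
def Holds {α : Type} (φ : Language.ring.Formula (α ⊕ P)) (v : α → B) : Prop :=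
  @Formula.Realize Language.ring B (str B) (α ⊕ P) φ (Sum.elim v (algebraMap P B))

/-- a definable predicate -/
def Dfn {α : Type} (s : (α → B) → Prop) : Prop :=
  ∃ φ : Language.ring.Formula (α ⊕ P), ∀ v, Holds P φ v ↔ s v

/-- a definable function (term) -/
def DT {α : Type} (t : (α → B) → B) : Prop :=
  ∃ τ : Language.ring.Term (α ⊕ P), ∀ v,
    @Term.realize Language.ring B (str B) (α ⊕ P) (Sum.elim v (algebraMap P B)) τ = t v

variable {P} {α β : Type}

theorem DT.var (i : α) : DT P (fun v : α → B => v i) := by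
  let _ := FirstOrder.Ring.compatibleRingOfRing B
  exact ⟨Term.var (Sum.inl i), fun v => rfl⟩

theorem DT.const (c : P) : DT P (fun _ : α → B => algebraMap P B c) := by
  let _ := FirstOrder.Ring.compatibleRingOfRing B
  exact ⟨Term.var (Sum.inr c), fun v => rfl⟩

theorem DT.add {s t : (α → B) → B} (hs : DT P s) (ht : DT P t) :
    DT P (fun v => s v + t v) := by
  let _ := FirstOrder.Ring.compatibleRingOfRing B
  obtain ⟨σ, hσ⟩ := hs
  obtain ⟨τ, hτ⟩ := ht
  exact ⟨σ + τ, fun v => by simp [hσ, hτ]⟩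

theorem DT.mul {s t : (α → B) → B} (hs : DT P s) (ht : DT P t) :
    DT P (fun v => s v * t v) := by
  let _ := FirstOrder.Ring.compatibleRingOfRing B
  obtain ⟨σ, hσ⟩ := hs
  obtain ⟨τ, hτ⟩ := ht
  exact ⟨σ * τ, fun v => by simp [hσ, hτ]⟩

theorem DT.neg {s : (α → B) → B} (hs : DT P s) : DT P (fun v => - s v) := by
  let _ := FirstOrder.Ring.compatibleRingOfRing B
  obtain ⟨σ, hσ⟩ := hs
  exact ⟨-σ, fun v => by simp [hσ]⟩

theorem DT.sub {s t : (α → B) → B} (hs : DT P s) (ht : DT P t) :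
    DT P (fun v => s v - t v) := by
  simp only [sub_eq_add_neg]
  exact hs.add ht.neg

theorem DT.one : DT P (fun _ : α → B => 1) := by
  simpa using DT.const (B := B) (α := α) (1 : P)

theorem DT.zero : DT P (fun _ : α → B => 0) := by
  simpa using DT.const (B := B) (α := α) (0 : P)

theorem DT.pow {s : (α → B) → B} (hs : DT P s) (n : ℕ) : DT P (fun v => s v ^ n) := by
  induction n with
  | zero => simpa using DT.one
  | succ n ih => simpa only [pow_succ] using ih.mul hs

theorem DT.sum {ι : Type} (I : Finset ι) {s : ι → (α → B) → B} (hs : ∀ i, DT P (s i)) :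
    DT P (fun v => ∑ i ∈ I, s i v) := by
  classical
  induction I using Finset.induction_on with
  | empty => simpa using DT.zero
  | insert a I ha ih => simpa only [Finset.sum_insert ha] using (hs a).add ih

/-- evaluation of a fixed polynomial -/
theorem DT.aeval {σ : Type} (p : MvPolynomial σ P) {E : (α → B) → (σ → B)}
    (hE : ∀ i, DT P (fun v => E v i)) : DT P (fun v => MvPolynomial.aeval (E v) p) := by
  induction p using MvPolynomial.induction_on with
  | C a => simpa using DT.const a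
  | add p q hp hq => simpa only [map_add] using hp.add hq
  | mul_X p i hp => simpa only [map_mul, MvPolynomial.aeval_X] using hp.mul (hE i)

theorem Dfn.congr {s t : (α → B) → Prop} (hs : Dfn P s) (h : ∀ v, s v ↔ t v) : Dfn P t := by
  obtain ⟨φ, hφ⟩ := hs
  exact ⟨φ, fun v => (hφ v).trans (h v)⟩

theorem Dfn.eq {s t : (α → B) → B} (hs : DT P s) (ht : DT P t) :
    Dfn P (fun v => s v = t v) := by
  let _ := FirstOrder.Ring.compatibleRingOfRing B
  obtain ⟨σ, hσ⟩ := hs
  obtain ⟨τ, hτ⟩ := ht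
  refine ⟨Term.equal σ τ, fun v => ?_⟩
  rw [Holds, Formula.realize_equal, hσ, hτ]

theorem Dfn.not {s : (α → B) → Prop} (hs : Dfn P s) : Dfn P (fun v => ¬ s v) := by
  obtain ⟨φ, hφ⟩ := hs
  exact ⟨∼φ, fun v => not_congr (hφ v)⟩

theorem Dfn.imp {s t : (α → B) → Prop} (hs : Dfn P s) (ht : Dfn P t) :
    Dfn P (fun v => s v → t v) := by
  obtain ⟨φ, hφ⟩ := hs
  obtain ⟨ψ, hψ⟩ := ht
  exact ⟨φ.imp ψ, fun v => imp_congr (hφ v) (hψ v)⟩

theorem Dfn.and {s t : (α → B) → Prop} (hs : Dfn P s) (ht : Dfn P t) :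
    Dfn P (fun v => s v ∧ t v) :=
  (hs.imp ht.not).not.congr fun v => by tauto

theorem Dfn.or {s t : (α → B) → Prop} (hs : Dfn P s) (ht : Dfn P t) :
    Dfn P (fun v => s v ∨ t v) :=
  (hs.not.imp ht).congr fun v => by tauto

theorem Dfn.iff {s t : (α → B) → Prop} (hs : Dfn P s) (ht : Dfn P t) :
    Dfn P (fun v => (s v ↔ t v)) :=
  ((hs.imp ht).and (ht.imp hs)).congr fun v => by tauto

theorem Dfn.true : Dfn P (fun _ : α → B => True) :=
  (Dfn.eq DT.zero DT.zero).congr fun v => by tauto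

theorem Dfn.forallFinset {ι : Type} (I : Finset ι) {s : ι → (α → B) → Prop}
    (hs : ∀ i, Dfn P (s i)) : Dfn P (fun v => ∀ i ∈ I, s i v) := by
  classical
  induction I using Finset.induction_on with
  | empty => exact Dfn.true.congr fun v => by simp
  | insert a I ha ih => exact ((hs a).and ih).congr fun v => by simp

theorem Dfn.forallFin {ι : Type} [Fintype ι] {s : ι → (α → B) → Prop}
    (hs : ∀ i, Dfn P (s i)) : Dfn P (fun v => ∀ i, s i v) :=
  (Dfn.forallFinset Finset.univ hs).congr fun v => by simp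

/-- relabelling of the variables -/
def relab (α β P : Type) : (α ⊕ β) ⊕ P → (α ⊕ P) ⊕ β
  | Sum.inl (Sum.inl a) => Sum.inl (Sum.inl a)
  | Sum.inl (Sum.inr b) => Sum.inr b
  | Sum.inr c => Sum.inl (Sum.inr c)

theorem Dfn.exBlock [Finite β] {R : (α → B) → (β → B) → Prop}
    (h : Dfn P (fun w : α ⊕ β → B => R (w ∘ Sum.inl) (w ∘ Sum.inr))) :
    Dfn P (fun v => ∃ x, R v x) := by
  let _ := FirstOrder.Ring.compatibleRingOfRing B
  obtain ⟨φ, hφ⟩ := h
  refine ⟨(φ.relabel (relab α β P)).iExs β, fun v => ?_⟩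
  rw [Holds, Formula.realize_iExs]
  refine exists_congr fun x => ?_
  rw [Formula.realize_relabel]
  have h1 : Holds P φ (Sum.elim v x) ↔ R v x := hφ (Sum.elim v x)
  rw [← h1, Holds]
  have h2 : (Sum.elim (Sum.elim v (algebraMap P B)) x : (α ⊕ P) ⊕ β → B) ∘ relab α β P =
      Sum.elim (Sum.elim v x) (algebraMap P B) := by
    funext i
    rcases i with (i | i) | i <;> rfl
  rw [h2]

theorem Dfn.allBlock [Finite β] {R : (α → B) → (β → B) → Prop}
    (h : Dfn P (fun w : α ⊕ β → B => R (w ∘ Sum.inl) (w ∘ Sum.inr))) :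
    Dfn P (fun v => ∀ x, R v x) :=
  (Dfn.exBlock (R := fun v x => ¬ R v x) h.not).not.congr fun v => by
    push Not
    exact Iff.rfl

theorem Dfn.ex {R : (α → B) → B → Prop}
    (h : Dfn P (fun w : α ⊕ Unit → B => R (w ∘ Sum.inl) (w (Sum.inr ())))) :
    Dfn P (fun v => ∃ x, R v x) :=
  (Dfn.exBlock (β := Unit) (R := fun v x => R v (x ())) h).congr fun v =>
    ⟨fun ⟨x, hx⟩ => ⟨x (), hx⟩, fun ⟨x, hx⟩ => ⟨fun _ => x, hx⟩⟩

theorem Dfn.all {R : (α → B) → B → Prop}
    (h : Dfn P (fun w : α ⊕ Unit → B => R (w ∘ Sum.inl) (w (Sum.inr ())))) :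
    Dfn P (fun v => ∀ x, R v x) :=
  (Dfn.allBlock (β := Unit) (R := fun v x => R v (x ())) h).congr fun v =>
    ⟨fun h x => h fun _ => x, fun h x => h (x ())⟩

/-- weakening of terms -/
theorem DT.weak {t : (α → B) → B} (h : DT P t) :
    DT P (fun w : α ⊕ β → B => t (w ∘ Sum.inl)) := by
  let _ := FirstOrder.Ring.compatibleRingOfRing B
  obtain ⟨τ, hτ⟩ := h
  refine ⟨τ.relabel (Sum.map Sum.inl id), fun w => ?_⟩
  refine Eq.trans ?_ (hτ (w ∘ Sum.inl))
  rw [Term.realize_relabel]
  congr 1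
  funext i
  rcases i with i | i <;> rfl

/-- definable predicates are invariant under automorphisms -/
theorem Dfn.invariant {s : (α → B) → Prop} (h : Dfn P s) (e : B ≃ₐ[P] B) (v : α → B) :
    s (e ∘ v) ↔ s v := by
  let _ := FirstOrder.Ring.compatibleRingOfRing B
  obtain ⟨φ, hφ⟩ := h
  rw [← hφ, ← hφ, Holds, Holds]
  let E : B ≃[Language.ring] B := FirstOrder.Ring.languageEquivEquivRingEquiv.symm e.toRingEquiv
  have h1 := StrongHomClass.realize_formula E φ (v := Sum.elim v (algebraMap P B))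
  have h2 : (E : B → B) ∘ (Sum.elim v (algebraMap P B)) =
      Sum.elim (e ∘ v) (algebraMap P B) := by
    funext i
    rcases i with i | i
    · rfl
    · exact e.commutes i
  rw [h2] at h1
  exact h1

end Pool.Agent.X225.Pa
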