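import Pool.Agent.X225.Pa.Alg

/-!
# The formula characterises the bases
-/

namespace Pool.Agent.X225.Pa

open MvPolynomial

variable {P : Type} [Field P] {k : ℕ}

theorem Cl_iff {σ : Type} {q : ℕ} {v : MvPolynomial σ P} (h : Cl q v) (x : MvPolynomial σ P) :
    D q v x ↔ PV (P := P) v x := by
  obtain ⟨h1, h2, h3, h4, h5, h6⟩ := h
  constructor
  · exact fun hx => descent h1 _ h6 x hx
  · rintro ⟨f, rfl⟩
    induction f using Polynomial.induction_on' with
    | add p q hp hq => rw [map_add]; exact h4 _ _ hp hq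
    | monomial n a =>
      rw [← Polynomial.C_mul_X_pow_eq_monomial, map_mul, map_pow, Polynomial.aeval_X,
        Polynomial.aeval_C]
      induction n with
      | zero =>
        rw [pow_zero, mul_one]
        exact h2 _ ((isCst_iff _).2 ⟨a, rfl⟩)
      | succ n ih =>
        rw [pow_succ, ← mul_assoc]
        exact h5 _ _ ih h3

theorem not_cst_X_zero : ¬ IsCst (X 0 : MvPolynomial (Fin (k + 1)) P) := by
  rw [isCst_iff]
  rintro ⟨c, hc⟩
  have := congrArg totalDegree hc
  rw [totalDegree_X, totalDegree_C] at this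
  exact one_ne_zero this

theorem Cl_X_zero : Cl (ringChar P) (X 0 : MvPolynomial (Fin (k + 1)) P) := by
  refine ⟨not_cst_X_zero, fun x hx => ?_, ?_, fun x y hx hy => ?_, fun x y hx hy => ?_,
    fun x hx => ?_⟩
  · obtain ⟨c, rfl⟩ := (isCst_iff x).1 hx
    rw [D_iff]
    exact ⟨Polynomial.C c, by rw [Polynomial.aeval_C]; rfl⟩
  · rw [D_iff]
    exact ⟨Polynomial.X, by rw [Polynomial.aeval_X]⟩
  · rw [D_iff] at *
    obtain ⟨f, rfl⟩ := hx
    obtain ⟨g, rfl⟩ := hy
    exact ⟨f + g, by rw [map_add]⟩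
  · rw [D_iff] at *
    obtain ⟨f, rfl⟩ := hx
    obtain ⟨g, rfl⟩ := hy
    exact ⟨f * g, by rw [map_mul]⟩
  · rw [D_iff] at hx
    obtain ⟨f, rfl⟩ := hx
    refine ⟨algebraMap P _ (f.coeff 0), Polynomial.aeval (X 0) f.divX,
      (isCst_iff _).2 ⟨_, rfl⟩, (D_iff _).2 ⟨_, rfl⟩, ?_⟩
    conv_lhs => rw [← Polynomial.divX_mul_X_add f]
    rw [map_add, map_mul, Polynomial.aeval_X, Polynomial.aeval_C]
    ring

/-! ### The ideals -/

theorem InI.add {B : Type} [CommRing B] {e : Fin (k + 1) → B} {α : Fin k → B} {g h : B}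
    (hg : InI e α g) (hh : InI e α h) : InI e α (g + h) := by
  obtain ⟨c, rfl⟩ := hg
  obtain ⟨d, rfl⟩ := hh
  refine ⟨c + d, ?_⟩
  rw [← Finset.sum_add_distrib]
  refine Finset.sum_congr rfl fun i _ => ?_
  rw [Pi.add_apply, add_mul]

theorem InI.mul {B : Type} [CommRing B] {e : Fin (k + 1) → B} {α : Fin k → B} {g : B} (h : B)
    (hg : InI e α g) : InI e α (h * g) := by
  obtain ⟨c, rfl⟩ := hg
  exact ⟨fun i => h * c i, by
    rw [Finset.mul_sum]; exact Finset.sum_congr rfl fun i _ => (mul_assoc _ _ _).symm⟩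

theorem InI.neg {B : Type} [CommRing B] {e : Fin (k + 1) → B} {α : Fin k → B} {g : B}
    (hg : InI e α g) : InI e α (-g) := by
  rw [← neg_one_mul]
  exact hg.mul _

theorem InI.sub {B : Type} [CommRing B] {e : Fin (k + 1) → B} {α : Fin k → B} {g h : B}
    (hg : InI e α g) (hh : InI e α h) : InI e α (g - h) := by
  rw [sub_eq_add_neg]
  exact hg.add hh.neg

theorem InI.zero {B : Type} [CommRing B] {e : Fin (k + 1) → B} {α : Fin k → B} :
    InI e α 0 := ⟨0, by simp⟩

theorem InI.gen {B : Type} [CommRing B] {e : Fin (k + 1) → B} {α : Fin k → B} (i : Fin k) :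
    InI e α (e i.succ - α i) := by
  classical
  refine ⟨fun j => if j = i then 1 else 0, ?_⟩
  simp

/-- replacing the coordinates -/
abbrev repl {B : Type} (e : Fin (k + 1) → B) (α : Fin k → B) : Fin (k + 1) → B :=
  Fin.cons (e 0) α

theorem InI_repl {B : Type} [CommRing B] [Algebra P B] (e : Fin (k + 1) → B) (α : Fin k → B)
    (G : MvPolynomial (Fin (k + 1)) P) : InI e α (aeval e G - aeval (repl e α) G) := by
  induction G using MvPolynomial.induction_on with
  | C a => simp only [algHom_C, sub_self]; exact InI.zero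
  | add p q hp hq =>
    rw [map_add, map_add, add_sub_add_comm]
    exact hp.add hq
  | mul_X p i hp =>
    rw [map_mul, map_mul, aeval_X, aeval_X]
    have h1 : aeval e p * e i - aeval (repl e α) p * repl e α i =
        e i * (aeval e p - aeval (repl e α) p) + aeval (repl e α) p * (e i - repl e α i) := by
      ring
    rw [h1]
    refine (hp.mul _).add (InI.mul _ ?_)
    refine Fin.cases ?_ (fun j => ?_) i
    · rw [repl, Fin.cons_zero, sub_self]
      exact InI.zero
    · rw [repl, Fin.cons_succ]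
      exact InI.gen j

/-- the polynomial in one variable -/
noncomputable def uni (a : Fin k → Polynomial P) (G : MvPolynomial (Fin (k + 1)) P) :
    Polynomial P := aeval (Fin.cons Polynomial.X a : Fin (k + 1) → Polynomial P) G

theorem aeval_repl {B : Type} [CommRing B] [Algebra P B] (e : Fin (k + 1) → B)
    (a : Fin k → Polynomial P) (G : MvPolynomial (Fin (k + 1)) P) :
    aeval (repl e fun i => Polynomial.aeval (e 0) (a i)) G =
      Polynomial.aeval (e 0) (uni a G) := by
  have h : (aeval (repl e fun i => Polynomial.aeval (e 0) (a i)) :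
      MvPolynomial (Fin (k + 1)) P →ₐ[P] B) =
      (Polynomial.aeval (e 0)).comp (aeval (Fin.cons Polynomial.X a)) := by
    ext i
    rw [aeval_X, AlgHom.comp_apply, aeval_X]
    refine Fin.cases ?_ (fun j => ?_) i
    · rw [repl, Fin.cons_zero, Fin.cons_zero, Polynomial.aeval_X]
    · rw [repl, Fin.cons_succ, Fin.cons_succ]
  rw [h]
  rfl

/-- a polynomial vanishing at all polynomial points is zero -/
theorem uni_zero {G : MvPolynomial (Fin (k + 1)) P} (h : ∀ a, uni a G = 0) : G = 0 := by
  have h1 : ∀ a : Fin k → Polynomial P, eval a (psi P k G) = uni a G := by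
    intro a
    have h2 : ((MvPolynomial.aeval a).restrictScalars P).comp (psi P k).toAlgHom =
        (aeval (Fin.cons Polynomial.X a : Fin (k + 1) → Polynomial P)) := by
      ext1 i
      refine Fin.cases ?_ (fun j => ?_) i
      · change MvPolynomial.aeval a (psi P k (X 0)) = _
        rw [psi_X_zero, aeval_X, Fin.cons_zero]
        simp
      · change MvPolynomial.aeval a (psi P k (X j.succ)) = _
        rw [psi_X_succ, aeval_X, aeval_X, Fin.cons_succ]
    have h3 := DFunLike.congr_fun h2 G
    rw [uni, ← h3]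
    exact (DFunLike.congr_fun (MvPolynomial.coe_aeval_eq_eval a) (psi P k G)).symm
  apply (psi P k).injective
  rw [map_zero]
  apply MvPolynomial.funext
  intro a
  rw [h1, h, map_zero]

theorem W_X : W (ringChar P) (X : Fin (k + 1) → MvPolynomial (Fin (k + 1)) P) := by
  refine ⟨Cl_X_zero, fun α hα => ?_⟩
  simp only [D_iff] at *
  choose a ha using hα
  have hα' : α = fun i => Polynomial.aeval (X 0) (a i) := funext ha
  constructor
  · intro g
    refine ⟨Polynomial.aeval (X 0) (uni a g), ⟨_, rfl⟩, ?_⟩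
    rw [← aeval_repl, ← hα']
    have := InI_repl (P := P) X α g
    rwa [aeval_X_left_apply] at this
  · rintro x ⟨f, rfl⟩ ⟨c, hc⟩
    have h1 := congrArg (aeval (repl X α) : MvPolynomial (Fin (k + 1)) P →ₐ[P] _) hc
    have h2 : ∀ f : Polynomial P, aeval (repl X α : Fin (k + 1) → MvPolynomial (Fin (k + 1)) P)
        (Polynomial.aeval (X 0 : MvPolynomial (Fin (k + 1)) P) f) =
        Polynomial.aeval (X 0 : MvPolynomial (Fin (k + 1)) P) f := by
      intro f
      rw [← Polynomial.aeval_algHom_apply, aeval_X, repl, Fin.cons_zero]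
    rw [h2, map_sum] at h1
    rw [h1]
    refine Finset.sum_eq_zero fun i _ => ?_
    rw [map_mul, map_sub, aeval_X, repl, Fin.cons_succ]
    have h3 : aeval (repl X α : Fin (k + 1) → MvPolynomial (Fin (k + 1)) P) (α i) = α i := by
      rw [ha i]
      exact h2 _
    rw [h3, sub_self, mul_zero]

/-- independence over all the ideals -/
theorem indep {e : Fin (k + 1) → MvPolynomial (Fin (k + 1)) P} (he : W (ringChar P) e)
    {G : MvPolynomial (Fin (k + 1)) P}
    (h : ∀ α : Fin k → MvPolynomial (Fin (k + 1)) P, (∀ i, D (ringChar P) (e 0) (α i)) →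
      InI e α (aeval e G)) : G = 0 := by
  obtain ⟨h1, h2⟩ := he
  apply uni_zero
  intro a
  have hα : ∀ i, D (ringChar P) (e 0) (Polynomial.aeval (e 0) (a i)) := fun i =>
    (Cl_iff h1 _).2 ⟨_, rfl⟩
  have h3 := (h _ hα).sub (InI_repl (P := P) e (fun i => Polynomial.aeval (e 0) (a i)) G)
  rw [sub_sub_cancel, aeval_repl] at h3
  exact transc h1.1 _ ((h2 _ hα).2 _ ((Cl_iff h1 _).2 ⟨_, rfl⟩) h3)

theorem algInd {e : Fin (k + 1) → MvPolynomial (Fin (k + 1)) P} (he : W (ringChar P) e) :
    AlgebraicIndependent P e := by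
  rw [algebraicIndependent_iff]
  intro G hG
  exact indep he fun α _ => by rw [hG]; exact InI.zero

/-- the intersection of the ideals is zero -/
theorem inter_zero {e : Fin (k + 1) → MvPolynomial (Fin (k + 1)) P} (he : W (ringChar P) e)
    {z : MvPolynomial (Fin (k + 1)) P}
    (h : ∀ α : Fin k → MvPolynomial (Fin (k + 1)) P, (∀ i, D (ringChar P) (e 0) (α i)) →
      InI e α z) : z = 0 := by
  by_contra hz
  have htr : Algebra.trdeg P (MvPolynomial (Fin (k + 1)) P) = Cardinal.mk (Fin (k + 1)) := by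
    rw [MvPolynomial.trdeg_of_isDomain, Cardinal.lift_id]
  have hbasis : IsTranscendenceBasis P e := (algInd he).isTranscendenceBasis_of_trdeg_le
    (by rw [htr]; exact Cardinal.lt_aleph0_of_finite _) htr.le
  have halg := hbasis.isAlgebraic
  obtain ⟨y, hy0, hy⟩ := (halg.isAlgebraic z).exists_nonzero_dvd (mem_nonZeroDivisors_of_ne_zero hz)
  obtain ⟨w, hw⟩ := hy
  have hymem : (y : MvPolynomial (Fin (k + 1)) P) ∈
      (aeval e : MvPolynomial (Fin (k + 1)) P →ₐ[P] _).range := by
    rw [← Algebra.adjoin_range_eq_range_aeval]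
    exact y.2
  obtain ⟨G, hG⟩ := hymem
  have hG0 : G = 0 := indep he fun α hα => by
    have h1 : (aeval e G : MvPolynomial (Fin (k + 1)) P) = w * z := by
      rw [mul_comm, ← hw]
      exact hG
    rw [h1]
    exact (h α hα).mul w
  apply hy0
  apply Subtype.ext
  rw [← hG, hG0]
  simp

end Pool.Agent.X225.Pa
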